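import Pool.Agent.Lib.MP_5a0ad8_an.Abstract
import Pool.Agent.Lib.MP_5a0ad8_an.Lower

/-!
The integral operator on `L²[0,1]` with kernel `{u/y}/(u/y)` is not of trace class.
-/

set_option autoImplicit false

open MeasureTheory Filter Set Module
open scoped NNReal ENNReal Real

namespace Pool.Agent.Results.MP_5a0ad8_an.NotTraceClass

/-- The kernel `K(y,u) = {u/y} / (u/y)`. -/
noncomputable def K (y u : ℝ) : ℝ := Int.fract (u / y) / (u / y)

/-- The sum of the singular values of an operator `T` on a complex Hilbert space: the sum of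
the eigenvalues `s ≥ 0` of `(T* T)^(1/2)`, each counted with its multiplicity. -/
noncomputable def singularValueSum {E : Type} [NormedAddCommGroup E] [InnerProductSpace ℂ E]
    [CompleteSpace E] (T : E →L[ℂ] E) : ℝ≥0∞ :=
  ∑' s : ℝ≥0, (s : ℝ≥0∞) *
    (finrank ℂ (Module.End.eigenspace
      ((CFC.sqrt (ContinuousLinearMap.adjoint T * T) : E →L[ℂ] E) : Module.End ℂ E)
      ((s : ℝ) : ℂ)) : ℝ≥0∞)

open Pool.Agent.Lib.MP_5a0ad8_an

theorem result :
    ∃ T : Lp ℂ 2 (volume.restrict (Icc (0 : ℝ) 1)) →L[ℂ] Lp ℂ 2 (volume.restrict (Icc (0 : ℝ) 1)),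
      (∀ h : Lp ℂ 2 (volume.restrict (Icc (0 : ℝ) 1)),
        T h =ᵐ[volume.restrict (Icc (0 : ℝ) 1)]
          fun y => ∫ u in Icc (0 : ℝ) 1, (K y u : ℂ) * h u) ∧
      IsCompactOperator T ∧ singularValueSum T = ⊤ := by
  obtain ⟨T, hT, hHS⟩ := exists_op (μ := leb) (fun y u => Int.fract |u / y| / |u / y|)
    (by
      have h1 : Measurable fun p : ℝ × ℝ => |p.2 / p.1| :=
        (measurable_snd.div measurable_fst).abs
      exact h1.fract.div h1)
    (by
      intro y u
      have h0 : 0 ≤ |u / y| := abs_nonneg _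
      have h1 : Int.fract |u / y| ≤ |u / y| := by
        have : (0 : ℝ) ≤ (⌊|u / y|⌋ : ℤ) := by exact_mod_cast Int.floor_nonneg.mpr h0
        rw [Int.fract]
        linarith
      rw [abs_of_nonneg (div_nonneg (Int.fract_nonneg _) h0)]
      exact div_le_one_of_le₀ h1 h0)
  have hT' : ∀ h : Lp ℂ 2 leb, T h =ᵐ[leb] fun y => ∫ u, (K y u : ℂ) * h u ∂leb := by
    intro h
    filter_upwards [hT h, ae_restrict_mem measurableSet_Icc] with y hy hy'
    rw [hy]
    apply integral_congr_ae
    filter_upwards [ae_restrict_mem measurableSet_Icc] with u hu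
    rw [abs_of_nonneg (div_nonneg hu.1 hy'.1), K]
  obtain ⟨w, b, -⟩ := exists_hilbertBasis ℂ (Lp ℂ 2 leb)
  have hsum : Summable fun i => ‖T (b i)‖ ^ 2 :=
    summable_of_sum_le (fun _ => by positivity) (hHS w b b.orthonormal)
  obtain ⟨hpos, hnorm⟩ := sqrt_facts T
  refine ⟨T, hT', hs_compact b T hsum, ?_⟩
  apply tsum_eigen_eq_top _ (hs_compact b _ (by simpa only [hnorm] using hsum)) hpos
    (1 / (8 * π)) (by have := Real.pi_pos; positivity)
  intro m U hU hm
  simp only [hnorm]
  exact lower_bound T hT' m U hU hm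

end Pool.Agent.Results.MP_5a0ad8_an.NotTraceClass
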